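import Mathlib
import Pool.Agent.P.MP_190226_lc.Defs
import Pool.Agent.P.MP_190226_lc.Main

set_option autoImplicit false

open MeasureTheory Pool.Agent.P.MP_190226_lc

namespace Pool.Agent.Results.MP_190226_lc.ConjBorel

/-- For an ergodic measure-preserving bijection `T₀` of a standard atomless probability space,
the conjugacy relation of the full group `[T₀]` is a Borel subset of `[T₀] × [T₀]` for the
uniform topology. -/
theorem result {X : Type*} [MeasurableSpace X] [StandardBorelSpace X] (μ : Measure X)
    [IsProbabilityMeasure μ] [NullSingletonClass μ] (T₀ : X ≃ᵐ X) (hT₀ : Ergodic T₀ μ) :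
    @MeasurableSet (FullGroup μ T₀ × FullGroup μ T₀) (borel (FullGroup μ T₀ × FullGroup μ T₀))
      (conjRel μ T₀) :=
  conjRel_borel hT₀.toMeasurePreserving

end Pool.Agent.Results.MP_190226_lc.ConjBorel
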