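import Mathlib
import Pool.Agent.P.MP_190226_lc.Sim.Defs
import Pool.Agent.P.MP_190226_lc.Sim.Data

set_option autoImplicit false

open MeasureTheory Pool.Agent.P.MP_190226_lc.Sim

namespace Pool.Agent.Results.MP_190226_lc.NotGdeltaSigma

/-- If a countable group `G` of measure-preserving bijections of a standard atomless probability
space contains an ergodic element, then conjugacy in the full group `[G]`, of elements or of
families, is not a countable union of `Gδ` sets for the uniform topology. -/
theorem result {X : Type*} [MeasurableSpace X] [StandardBorelSpace X] (μ : Measure X)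
    [IsProbabilityMeasure μ] [NullSingletonClass μ] (G : Subgroup (Equiv.Perm X)) [Countable G]
    (hG : ∀ g ∈ G, MeasurePreserving g μ μ) (T₀ : Equiv.Perm X) (h₀ : T₀ ∈ G)
    (hT₀ : Ergodic T₀ μ) (ι : Type*) [Nonempty ι] :
    ¬∃ H : ℕ → Set ((ι → FullGroup μ G) × (ι → FullGroup μ G)),
      (∀ j, IsGδ (H j)) ∧ conjRel μ G ι = ⋃ j, H j :=
  fun ⟨_, hH, e⟩ => conjRel_ne hG h₀ hT₀ ι hH e

end Pool.Agent.Results.MP_190226_lc.NotGdeltaSigma
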