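import Mathlib
import Pool.Agent.P.MP_190226_lc.Sim.Defs
import Pool.Agent.P.MP_190226_lc.Sim.Main

set_option autoImplicit false

open MeasureTheory Pool.Agent.P.MP_190226_lc.Sim

namespace Pool.Agent.Results.MP_190226_lc.SimulConjPi03

/-- For every countable group `G` of measure-preserving bijections of a standard probability space
and every countable index set, simultaneous conjugacy of families in the full group `[G]` is a
countable intersection of countable unions of closed sets for the uniform topology. -/
theorem result {X : Type*} [MeasurableSpace X] [StandardBorelSpace X] (μ : Measure X)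
    [IsProbabilityMeasure μ] (G : Subgroup (Equiv.Perm X)) [Countable G]
    (hG : ∀ g ∈ G, MeasurePreserving g μ μ) (ι : Type*) [Countable ι] :
    ∃ F : ℕ → ℕ → Set ((ι → FullGroup μ G) × (ι → FullGroup μ G)),
      (∀ k n, IsClosed (F k n)) ∧ conjRel μ G ι = ⋂ k, ⋃ n, F k n :=
  conjRel_eq hG ι

end Pool.Agent.Results.MP_190226_lc.SimulConjPi03
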